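import Pool.Agent.Zk89.PE.Defs

/-!
# Convergence of the comparison averages
-/

set_option autoImplicit false

open Finset Filter Topology MeasureTheory

noncomputable section

namespace Pool.Agent.Zk50.PE

open Pool.Agent.W761.Box (bx bxc orb dz bxc_of_bx)

theorem orb_act {X C : Type*} [CommGroup C] (Ψ : C →* Equiv.Perm X) : ∀ (k : ℕ) (g : Fin k → C)
    (m : Fin k → ℕ) (x : X), orb k (fun j => (Ψ (g j) : X → X)) m x = Ψ (∏ j, g j ^ m j) x := by
  intro k
  induction k with
  | zero =>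
    intro g m x
    simp [orb]
  | succ k ih =>
    intro g m x
    have h1 : orb (k + 1) (fun j => (Ψ (g j) : X → X)) m x = (Ψ (g 0) : X → X)^[m 0]
        (orb k (fun j => (Ψ (Fin.tail g j) : X → X)) (Fin.tail m) x) := rfl
    rw [h1, ih, Equiv.Perm.iterate_eq_pow, ← map_pow, ← Equiv.Perm.mul_apply, ← map_mul,
      Fin.prod_univ_succ]
    rfl

theorem sides_tendsto (D Q : ℕ) (hQ : 1 ≤ Q) :
    Tendsto (fun (t : ℕ) (r : Fin D) => (2 ^ t) ^ ((r : ℕ) + 1) / Q) atTop atTop := by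
  refine tendsto_atTop.2 fun b => ?_
  have h : ∀ r : Fin D, ∀ᶠ t : ℕ in atTop, b r ≤ (2 ^ t) ^ ((r : ℕ) + 1) / Q := by
    intro r
    have h1 : Tendsto (fun t : ℕ => (2 ^ t) ^ ((r : ℕ) + 1)) atTop atTop := by
      refine tendsto_atTop_mono (fun t => ?_) tendsto_id
      calc t ≤ 2 ^ t := Nat.lt_two_pow_self.le
        _ ≤ (2 ^ t) ^ ((r : ℕ) + 1) := Nat.le_self_pow (by omega) _
    exact ((Nat.tendsto_div_const_atTop (by omega)).comp h1).eventually_ge_atTop (b r)
  filter_upwards [eventually_all.2 h] with t ht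
  exact ht

theorem thmBX : Pool.Agent.Zk89.PE.S_BX := by
  intro X C _ μ _ _ Ψ hmp D Q hQ a F hF hb
  obtain ⟨b, hb⟩ := hb
  have hre := dz (P := μ) D (fun j => (Ψ (a j ^ Q) : X → X)) (fun j => hmp _) (fun x => (F x).re)
    (Complex.measurable_re.comp hF) b (fun x => (Complex.abs_re_le_norm _).trans (hb x))
  have him := dz (P := μ) D (fun j => (Ψ (a j ^ Q) : X → X)) (fun j => hmp _) (fun x => (F x).im)
    (Complex.measurable_im.comp hF) b (fun x => (Complex.abs_im_le_norm _).trans (hb x))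
  filter_upwards [hre, him] with x h1 h2
  obtain ⟨L, hL⟩ := bxc_of_bx (a := fun m => F (orb D (fun j => (Ψ (a j ^ Q) : X → X)) m x)) h1 h2
  refine ⟨L, (hL.comp (sides_tendsto D Q hQ)).congr fun t => ?_⟩
  simp only [Function.comp_apply, bxc]
  congr 1
  refine sum_congr rfl fun z _ => ?_
  rw [orb_act]
  congr 3
  refine prod_congr rfl fun r _ => ?_
  rw [pow_mul]

end Pool.Agent.Zk50.PE
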