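import Pool.Agent.Zk89.PE.Defs

/-!
# Transference of a block inequality
-/

set_option autoImplicit false
set_option linter.unusedSectionVars false

open Finset Filter Topology MeasureTheory

noncomputable section

namespace Pool.Agent.Zk50.PE

open Pool.Agent.Zk89.MT (dg dg_add card_good)
open Pool.Agent.Zk89.PE (opZ opX)

theorem card_good' {D K : ℕ} (hK1 : 1 ≤ K) [NeZero ((2 * (D + 1) * K) ^ D)] :
    (((2 * (D + 1) * K) ^ D : ℕ) : ℝ) ≤ 2 * ((univ.filter fun x : ZMod ((2 * (D + 1) * K) ^ D) =>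
      ∀ r < D, dg (2 * (D + 1) * K) x.val r + K < 2 * (D + 1) * K).card : ℝ) := by
  set M := 2 * (D + 1) * K with hM
  have hM0 : 0 < M := by positivity
  have h2 : (M - K) ^ D ≤ (univ.filter fun x : ZMod (M ^ D) =>
      ∀ r < D, dg M x.val r + K < M).card := card_good hM0
  have h3 : ((M ^ D : ℕ) : ℝ) ≤ 2 * ((M - K : ℕ) : ℝ) ^ D := by
    have hKM : K ≤ M := by
      rw [hM]
      nlinarith
    rw [Nat.cast_sub hKM]
    have hM0' : (0 : ℝ) < M := by exact_mod_cast hM0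
    have e1 : (M : ℝ) - K = M * (1 + -((K : ℝ) / M)) := by field_simp; ring
    have hD0 : (0 : ℝ) ≤ D := Nat.cast_nonneg _
    have hK0 : (0 : ℝ) < K := by exact_mod_cast hK1
    have e2 : (K : ℝ) / M = 1 / (2 * (D + 1)) := by
      rw [hM]
      push_cast
      field_simp
    have h4 := one_add_mul_le_pow (a := -((K : ℝ) / M)) (by
      rw [e2]
      have : 1 / (2 * ((D : ℝ) + 1)) ≤ 1 := by
        rw [div_le_one (by positivity)]
        linarith
      linarith) D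
    have h5 : (1 : ℝ) / 2 ≤ 1 + D * -((K : ℝ) / M) := by
      rw [e2]
      have : D * (1 / (2 * ((D : ℝ) + 1))) ≤ 1 / 2 := by
        rw [mul_one_div, div_le_div_iff₀ (by positivity) (by norm_num)]
        linarith
      linarith
    rw [Nat.cast_pow, e1, mul_pow]
    have h6 : 0 < (M : ℝ) ^ D := by positivity
    have h7 : (1 : ℝ) / 2 ≤ (1 + -((K : ℝ) / M)) ^ D := h5.trans h4
    nlinarith [mul_le_mul_of_nonneg_left h7 h6.le]
  have h4 : (((M - K) ^ D : ℕ) : ℝ) ≤ ((univ.filter fun x : ZMod (M ^ D) =>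
      ∀ r < D, dg M x.val r + K < M).card : ℝ) := by exact_mod_cast h2
  rw [Nat.cast_pow] at h4
  exact h3.trans (by linarith)

theorem thm : Pool.Agent.Zk89.PE.S_TR := by
  intro ι D J T I v c A hA0 hA X C _ μ _ _ Ψ hmp a F hF b hFb G hGm hG0 hG
  classical
  -- a bound for the vectors
  set K : ℕ := 1 + ∑ j, ∑ t ∈ T j, ∑ i ∈ I t, ∑ r ∈ range D, v t i r with hK
  have hK1 : 1 ≤ K := by omega
  have hv : ∀ (j : Fin J), ∀ t ∈ T j, ∀ i ∈ I t, ∀ r < D, v t i r ≤ K := by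
    intro j t ht i hi r hr
    have h1 : v t i r ≤ ∑ r ∈ range D, v t i r :=
      single_le_sum (f := fun r => v t i r) (fun _ _ => Nat.zero_le _) (mem_range.2 hr)
    have h2 : ∑ r ∈ range D, v t i r ≤ ∑ i ∈ I t, ∑ r ∈ range D, v t i r :=
      single_le_sum (f := fun i => ∑ r ∈ range D, v t i r) (fun _ _ => Nat.zero_le _) hi
    have h3 : ∑ i ∈ I t, ∑ r ∈ range D, v t i r ≤
        ∑ t ∈ T j, ∑ i ∈ I t, ∑ r ∈ range D, v t i r :=
      single_le_sum (f := fun t => ∑ i ∈ I t, ∑ r ∈ range D, v t i r)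
        (fun _ _ => Nat.zero_le _) ht
    have h4 : ∑ t ∈ T j, ∑ i ∈ I t, ∑ r ∈ range D, v t i r ≤
        ∑ j, ∑ t ∈ T j, ∑ i ∈ I t, ∑ r ∈ range D, v t i r :=
      single_le_sum (f := fun j => ∑ t ∈ T j, ∑ i ∈ I t, ∑ r ∈ range D, v t i r)
        (fun _ _ => Nat.zero_le _) (mem_univ j)
    omega
  set M := 2 * (D + 1) * K with hM
  have hM0 : 0 < M := by positivity
  have : NeZero (M ^ D) := ⟨by positivity⟩
  set L := M ^ D with hL
  set gd := univ.filter fun x : ZMod L => ∀ r < D, dg M x.val r + K < M with hgd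
  have hcard : (L : ℝ) ≤ 2 * gd.card := card_good' hK1
  have hgd0 : (0 : ℝ) < gd.card := by
    have : (0 : ℝ) < L := by exact_mod_cast Nat.pos_of_ne_zero (NeZero.ne L)
    linarith
  set cc : ZMod L → C := fun x => ∏ r ∈ range D, a r ^ dg M x.val r with hcc
  have hX : Nonempty X := nonempty_of_isProbabilityMeasure μ
  have hb : 0 ≤ b := by
    obtain ⟨x⟩ := hX
    exact (norm_nonneg _).trans (hFb x)
  -- a bound for the functions
  set b' : ℝ := ∑ j, ∑ t ∈ T j, ∑ i ∈ I t, ‖c t i‖ * b with hb'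
  have hGb : ∀ j x, G j x ≤ b' := by
    intro j x
    obtain ⟨t, ht, hle⟩ := hG j x
    refine hle.trans ?_
    have h1 : ‖opX Ψ a D (I t) (v t) (c t) F x‖ ≤ ∑ i ∈ I t, ‖c t i‖ * b := by
      unfold opX
      refine (norm_sum_le _ _).trans (sum_le_sum fun i _ => ?_)
      rw [norm_mul]
      exact mul_le_mul_of_nonneg_left (hFb _) (norm_nonneg _)
    have h2 : ∑ i ∈ I t, ‖c t i‖ * b ≤ ∑ t ∈ T j, ∑ i ∈ I t, ‖c t i‖ * b :=
      single_le_sum (f := fun t => ∑ i ∈ I t, ‖c t i‖ * b)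
        (fun t _ => sum_nonneg fun i _ => mul_nonneg (norm_nonneg _) hb) ht
    have h3 : ∑ t ∈ T j, ∑ i ∈ I t, ‖c t i‖ * b ≤ b' :=
      single_le_sum (f := fun j => ∑ t ∈ T j, ∑ i ∈ I t, ‖c t i‖ * b)
        (fun j _ => sum_nonneg fun t _ => sum_nonneg fun i _ => mul_nonneg (norm_nonneg _) hb)
        (mem_univ j)
    linarith
  -- the pointwise inequality
  have key : ∀ ω : X, ∑ j, ∑ x ∈ gd, G j (Ψ (cc x) ω) ^ 2 ≤ A * ∑ x, ‖F (Ψ (cc x) ω)‖ ^ 2 := by
    intro ω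
    set f : ZMod L → ℂ := fun x => F (Ψ (cc x) ω) with hf
    choose τ hτ hτG using fun (j : Fin J) (x : ZMod L) => hG j (Ψ (cc x) ω)
    have h1 := hA L (fun r => M ^ r) f τ hτ
    have h2 : ∀ j, ∀ x ∈ gd, G j (Ψ (cc x) ω) ≤
        ‖opZ D (I (τ j x)) (v (τ j x)) (c (τ j x)) (fun r => M ^ r) f x‖ := by
      intro j x hx
      refine (hτG j x).trans (le_of_eq ?_)
      congr 1
      unfold opX opZ
      refine sum_congr rfl fun i hi => ?_
      congr 1
      have h5 := dg_add hM0 x (fun r => v (τ j x) i r) fun r hr => by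
        have h6 := (mem_filter.1 hx).2 r hr
        have h7 := hv j (τ j x) (hτ j x) i hi r hr
        omega
      rw [hf]
      simp only
      congr 1
      rw [← Equiv.Perm.mul_apply, ← map_mul]
      congr 2
      rw [hcc]
      simp only
      rw [← prod_mul_distrib]
      refine prod_congr rfl fun r hr => ?_
      rw [h5 r (mem_range.1 hr), pow_add, mul_comm]
    calc ∑ j, ∑ x ∈ gd, G j (Ψ (cc x) ω) ^ 2
        ≤ ∑ j, ∑ x ∈ gd, ‖opZ D (I (τ j x)) (v (τ j x)) (c (τ j x)) (fun r => M ^ r) f x‖ ^ 2 :=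
          sum_le_sum fun j _ => sum_le_sum fun x hx => pow_le_pow_left₀ (hG0 _ _) (h2 j x hx) 2
      _ ≤ ∑ j, ∑ x, ‖opZ D (I (τ j x)) (v (τ j x)) (c (τ j x)) (fun r => M ^ r) f x‖ ^ 2 :=
          sum_le_sum fun j _ => sum_le_sum_of_subset_of_nonneg (subset_univ _)
            fun _ _ _ => sq_nonneg _
      _ ≤ A * ∑ x, ‖f x‖ ^ 2 := h1
  -- integration
  have hint : ∀ (b' : ℝ) (H : X → ℝ), Measurable H → (∀ x, 0 ≤ H x) → (∀ x, H x ≤ b') →
      ∀ g : C, Integrable (fun ω => H (Ψ g ω) ^ 2) μ ∧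
        ∫ ω, H (Ψ g ω) ^ 2 ∂μ = ∫ ω, H ω ^ 2 ∂μ := by
    intro b' H hH hH0 hHb g
    constructor
    · refine Integrable.of_bound ((hH.comp (hmp g).measurable).pow_const 2).aestronglyMeasurable
        (b' ^ 2) (Eventually.of_forall fun x => ?_)
      rw [Real.norm_eq_abs, abs_of_nonneg (sq_nonneg _)]
      exact pow_le_pow_left₀ (hH0 _) (hHb _) 2
    · have e := integral_map (μ := μ) (hmp g).measurable.aemeasurable
        (f := fun x => H x ^ 2) (hH.pow_const 2).aestronglyMeasurable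
      rw [(hmp g).map_eq] at e
      exact e.symm
  have hI1 := fun (j : Fin J) (g : C) => hint b' (G j) (hGm j) (hG0 j) (hGb j) g
  have hI2 := fun g : C => hint b (fun x => ‖F x‖) hF.norm (fun x => norm_nonneg _) hFb g
  have h2 : ∫ ω, ∑ j, ∑ x ∈ gd, G j (Ψ (cc x) ω) ^ 2 ∂μ ≤
      ∫ ω, A * ∑ x, ‖F (Ψ (cc x) ω)‖ ^ 2 ∂μ := by
    refine integral_mono (integrable_finsetSum _ fun j _ => integrable_finsetSum _ fun x _ =>
      (hI1 j _).1) ((integrable_finsetSum _ fun x _ => (hI2 _).1).const_mul _) key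
  rw [integral_finsetSum _ (fun j _ => integrable_finsetSum _ fun x _ => (hI1 j _).1),
    integral_const_mul, integral_finsetSum _ (fun x _ => (hI2 _).1)] at h2
  have h3 : ∀ j : Fin J, ∫ ω, ∑ x ∈ gd, G j (Ψ (cc x) ω) ^ 2 ∂μ =
      gd.card * ∫ ω, G j ω ^ 2 ∂μ := by
    intro j
    rw [integral_finsetSum _ (fun x _ => (hI1 j _).1)]
    simp only [(hI1 j _).2, sum_const, nsmul_eq_mul]
  have hcu : (univ : Finset (ZMod L)).card = L := by
    rw [card_univ, ZMod.card]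
  simp only [h3, (hI2 _).2, sum_const, nsmul_eq_mul, hcu, ← mul_sum] at h2
  have hh : 0 ≤ ∫ x, ‖F x‖ ^ 2 ∂μ := integral_nonneg fun x => sq_nonneg _
  have h4 : (gd.card : ℝ) * ∑ j, ∫ x, G j x ^ 2 ∂μ ≤
      gd.card * (2 * A * ∫ x, ‖F x‖ ^ 2 ∂μ) := by
    calc (gd.card : ℝ) * ∑ j, ∫ x, G j x ^ 2 ∂μ ≤ A * (L * ∫ x, ‖F x‖ ^ 2 ∂μ) := h2
      _ ≤ A * (2 * gd.card * ∫ x, ‖F x‖ ^ 2 ∂μ) := by gcongr
      _ = _ := by ring
  exact le_of_mul_le_mul_left h4 hgd0

end Pool.Agent.Zk50.PE
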